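import Mathlib
import Pool.Agent.MP_3b4e7c_co.Hub.Geo
import Pool.Agent.MP_3b4e7c_co.Gen4.Wide2
import Pool.Agent.MP_3b4e7c_co.Gen4.Narrow2
import Pool.Agent.MP_3b4e7c_co.Gen4.H3

namespace Pool.Agent.Results.MP_3b4e7c_co.AlternatingCycle

open Pool.Agent.MP_3b4e7c_co

/-- `n` points and `n` halfplanes (each open or closed) that satisfy the Hall-type condition admit
an alternating cyclic ordering. -/
theorem result (n : ℕ) (hn : 2 ≤ n) (P : Finset (ℝ × ℝ)) (hP : P.card = n)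
    (H : Fin n → Set (ℝ × ℝ)) (a b c : Fin n → ℝ)
    (hH : ∀ i, H i = {p | c i ≤ a i * p.1 + b i * p.2} ∨ H i = {p | c i < a i * p.1 + b i * p.2})
    (hall : ∀ X : Finset (ℝ × ℝ), X ⊆ P → 2 ≤ X.card →
      X.card ≤ {i : Fin n | 2 ≤ ((X : Set (ℝ × ℝ)) ∩ H i).ncard}.ncard) :
    ∃ (p : Fin n → ℝ × ℝ) (σ : Equiv.Perm (Fin n)), Function.Injective p ∧
      Set.range p = (P : Set (ℝ × ℝ)) ∧
      ∀ k, p k ∈ H (σ k) ∧ p (finRotate n k) ∈ H (σ k) :=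
  Hub.plane3 (Gen4.closing_of_narrow (Gen4.narrow_of_h3 Gen4.H3.core)) n hn P hP H a b c hH hall

end Pool.Agent.Results.MP_3b4e7c_co.AlternatingCycle
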